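import Pool.Agent.MWG.Stmts

set_option autoImplicit false

namespace Pool.Agent.MWG.H42

open Pool.Agent.Helper14_MV Pool.Agent.Helper2_MV Pool.Agent.MVO Pool.Agent.MWL Pool.Agent.MWS

theorem deg_mono {k : ℕ} {a b : ℕ → ℕ} (h : ∀ j, a j ≤ b j) : deg k a ≤ deg k b :=
  Finset.sum_le_sum (fun j _ => h j)

theorem okU {k i : ℕ} {C : ℕ → List ℕ} {L : List ℕ} (hC : OkB k C) (hi : i ≤ k)
    (h1 : ∀ c ∈ L, c ∈ C i) (h2 : ∀ c, (C i).count c ≤ L.count c) :
    OkB k (Function.update C i L) := by
  have hm : ∀ j c, c ∈ Function.update C i L j → c ∈ C j := by
    intro j c hc
    by_cases hj : j = i
    · subst hj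
      rw [Function.update_self] at hc
      exact h1 c hc
    · rwa [Function.update_of_ne hj] at hc
  constructor
  · intro j hj c hc
    exact hC.ok j hj c (hm j c hc)
  · intro j hj c hc
    refine le_trans (hC.ml j hj c (hm j c hc)) (deg_mono ?_)
    intro j'
    by_cases hj' : j' = i
    · subst hj'
      simp only [Function.update_self]
      exact h2 c
    · simp only [Function.update_of_ne hj']
      exact le_refl _

theorem mm {β : FIC} (hβ : ClM β) (hM : MsbStmt) {k i : ℕ} {C : ℕ → List ℕ} {L L' : List ℕ}
    (hC : OkB k C) (hi : i ≤ k)
    (h1 : ∀ c ∈ L, c ∈ C i) (h2 : ∀ c, (C i).count c ≤ L.count c)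
    (h1' : ∀ c ∈ L', c ∈ C i) (h2' : ∀ c, (C i).count c ≤ L'.count c)
    (h3 : ∀ c, L.count c = L'.count c ∨ (2 ≤ L.count c ∧ 2 ≤ L'.count c))
    (h4 : ∀ c d, c ≠ d → (Bef L c d ↔ Bef L' c d)) :
    RR β (asm k (Function.update C i L)) (asm k (Function.update C i L')) := by
  refine hM β hβ k _ _ (okU hC hi h1 h2) (okU hC hi h1' h2') ?_ ?_
  · intro c _ j _
    unfold ty
    by_cases hj : j = i
    · subst hj
      simp only [Function.update_self]
      exact h3 c
    · simp only [Function.update_of_ne hj]
      exact Or.inl trivial
  · intro j _ c d hcd
    by_cases hj : j = i
    · subst hj
      simp only [Function.update_self]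
      exact h4 c d hcd
    · simp only [Function.update_of_ne hj]

theorem exm (hB : BfiStmt) (hM : MsbStmt) (hF : FrsStmt) (hX : CtxStmt) : ExmStmt := by
  intro β θ hβ hle k C hC hD i hi A D x y hCi hxy hxD hyA hR hL
  have up : ∀ u v : List ℕ, RR β u v → RR θ u v := fun u v h => hle _ _ h
  have self : Function.update C i (A ++ x :: y :: D) = C := by
    rw [← hCi]
    exact Function.update_eq_self _ _
  have hxC : x ∈ C i := by rw [hCi]; simp
  have hyC : y ∈ C i := by rw [hCi]; simp
  have hyx : y ≠ x := fun h => hxy h.symm
  have cx : (C i).count x = A.count x + 1 := by
    rw [hCi, List.count_append, List.count_cons_self, List.count_cons_of_ne hyx,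
      List.count_eq_zero.2 hxD]
  have cy : (C i).count y = D.count y + 1 := by
    rw [hCi, List.count_append, List.count_cons_of_ne hxy, List.count_cons_self,
      List.count_eq_zero.2 hyA]
    omega
  by_cases h1 : ∃ j, i < j ∧ j ≤ k ∧ ty C x j ≠ 0 ∧ ty C y j ≠ 0
  · obtain ⟨j, hj1, hj2, hjx, hjy⟩ := h1
    have hx' : x ∈ C j := by
      by_contra h
      exact hjx (List.count_eq_zero.2 h)
    have hy' : y ∈ C j := by
      by_contra h
      exact hjy (List.count_eq_zero.2 h)
    obtain ⟨R, R', hs⟩ := suf_split (B := C) (i := i) (j := j) (r := k - i) hj1 (by omega)
    have e1 : asm k C = (pre C i ++ A) ++ x :: y :: (D ++ suf C i (k - i)) := by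
      rw [asm_split hi, hCi]
      simp
    have e2 : asm k (Function.update C i (A ++ y :: x :: D)) =
        (pre C i ++ A) ++ y :: x :: (D ++ suf C i (k - i)) := by
      rw [asm_update hi]
      simp
    apply up
    rw [e1, e2]
    refine hβ.cmw _ _ x y (C j) ⟨D ++ R, R', by rw [hs]; simp⟩ hx' hy' ?_
    intro z hz
    rw [← e1, count_asm (hC.ok j hj2 z hz)]
    exact hC.ml j hj2 z hz
  · have h1' : ∀ j, i < j → j ≤ k → ty C x j = 0 ∨ ty C y j = 0 := by
      intro j hj1 hj2
      by_contra h
      push Not at h
      exact h1 ⟨j, hj1, hj2, h.1, h.2⟩
    by_cases ha : Lf (ty C x) i
    · have vis : Vis k (ty C x) (ty C y) i := by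
        refine ⟨hi, ha, ?_, h1'⟩
        intro h0
        exact (List.count_eq_zero.1 h0) hyC
      have hxr := hR vis
      have hxA : x ∉ A := by
        have h2 : (C i).count x = 1 := ha.1
        rw [cx] at h2
        exact List.count_eq_zero.1 (by omega)
      by_cases hb : Lf (ty C y) i
      · have hm : mR (ty C y) i = ([0, 1], [1, 0]) := by
          unfold mR
          rw [if_pos hb]
        unfold XR eR at hxr
        rw [hm] at hxr
        have s1 : A ++ sb x y [0, 1] ++ D = A ++ x :: y :: D := by simp [sb]
        have s2 : A ++ sb x y [1, 0] ++ D = A ++ y :: x :: D := by simp [sb]
        have := hX β θ hβ hle k C i A D x y [0, 1] [1, 0] hxy vis hD (by simp) (by simp)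
          (by rw [s1, self]; exact hC)
          (by
            rw [s2]
            refine okU hC hi ?_ ?_
            · intro c hc
              rw [hCi]
              simp only [List.mem_append, List.mem_cons] at hc ⊢
              tauto
            · intro c
              rw [hCi, List.count_append, List.count_append]
              simp only [List.count_cons]
              omega)
          hxr
        rw [s1, s2, self] at this
        exact this
      · have hyD : y ∈ D := by
          rcases hD i hi y hyC with h | h
          · exact absurd h hb
          · rw [cy] at h
            by_contra h0
            rw [List.count_eq_zero.2 h0] at h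
            omega
        have hm : mR (ty C y) i = ([1, 1, 0, 1, 1], [0, 1, 1]) := by
          unfold mR
          rw [if_neg hb]
        unfold XR eR at hxr
        rw [hm] at hxr
        have s1 : A ++ sb x y [1, 1, 0, 1, 1] ++ D = A ++ y :: y :: x :: y :: y :: D := by
          simp [sb]
        have s2 : A ++ sb x y [0, 1, 1] ++ D = A ++ x :: y :: y :: D := by simp [sb]
        have hdy : 1 ≤ D.count y := List.count_pos_iff.2 hyD
        have m1 : ∀ c ∈ A ++ y :: y :: x :: y :: y :: D, c ∈ C i := by
          intro c hc
          rw [hCi]
          simp only [List.mem_append, List.mem_cons] at hc ⊢
          tauto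
        have m2 : ∀ c ∈ A ++ x :: y :: y :: D, c ∈ C i := by
          intro c hc
          rw [hCi]
          simp only [List.mem_append, List.mem_cons] at hc ⊢
          tauto
        have m3 : ∀ c ∈ A ++ y :: x :: D, c ∈ C i := by
          intro c hc
          rw [hCi]
          simp only [List.mem_append, List.mem_cons] at hc ⊢
          tauto
        have k1 : ∀ c, (C i).count c ≤ (A ++ y :: y :: x :: y :: y :: D).count c := by
          intro c
          rw [hCi, List.count_append, List.count_append]
          simp only [List.count_cons]
          omega
        have k2 : ∀ c, (C i).count c ≤ (A ++ x :: y :: y :: D).count c := by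
          intro c
          rw [hCi, List.count_append, List.count_append]
          simp only [List.count_cons]
          omega
        have k3 : ∀ c, (C i).count c ≤ (A ++ y :: x :: D).count c := by
          intro c
          rw [hCi, List.count_append, List.count_append]
          simp only [List.count_cons]
          omega
        have r1 := hX β θ hβ hle k C i A D x y [1, 1, 0, 1, 1] [0, 1, 1] hxy vis hD (by simp)
          (by simp) (by rw [s1]; exact okU hC hi m1 k1) (by rw [s2]; exact okU hC hi m2 k2) hxr
        rw [s1, s2] at r1
        have r2 : RR β (asm k C) (asm k (Function.update C i (A ++ x :: y :: y :: D))) := by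
          have := mm hβ hM (L := A ++ x :: y :: D) (L' := A ++ x :: y :: y :: D) hC hi
            (by intro c hc; rw [hCi]; exact hc) (by intro c; rw [hCi]) m2 k2 ?_ ?_
          · rw [self] at this
            exact this
          · intro c
            by_cases hc : c = y
            · subst hc
              right
              rw [List.count_append, List.count_append]
              simp only [List.count_cons]
              simp
              omega
            · left
              rw [List.count_append, List.count_append]
              simp only [List.count_cons]
              have : (y == c) = false := by simpa using fun h => hc h.symm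
              rw [this]
              simp
          · intro c d hcd
            have := hB (A ++ [x, y]) D y c d (by simp) hyD hcd
            simpa using this.symm
        have r3 : RR β (asm k (Function.update C i (A ++ y :: x :: D)))
            (asm k (Function.update C i (A ++ y :: y :: x :: y :: y :: D))) := by
          refine mm hβ hM hC hi m3 k3 m1 k1 ?_ ?_
          · intro c
            by_cases hc : c = y
            · subst hc
              right
              rw [List.count_append, List.count_append]
              simp only [List.count_cons]
              simp
              omega
            · left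
              rw [List.count_append, List.count_append]
              simp only [List.count_cons]
              have : (y == c) = false := by simpa using fun h => hc h.symm
              rw [this]
              simp
          · intro c d hcd
            have b1 := hB (A ++ [y]) (x :: D) y c d (by simp) (by simp [hyD]) hcd
            have b2 := hB (A ++ [y, y, x]) D y c d (by simp) hyD hcd
            have b3 := hB (A ++ [y, y, x]) (y :: D) y c d (by simp) (by simp) hcd
            simp only [List.append_assoc, List.cons_append, List.nil_append] at b1 b2 b3
            rw [b3, b2, b1]
        exact θ.trans (up _ _ r2) (θ.trans (r1.symm) (up _ _ r3.symm))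
    · by_cases hb : Lf (ty C y) i
      · have vis : Vis k (ty C y) (ty C x) i := by
          refine ⟨hi, hb, ?_, fun j hj1 hj2 => (h1' j hj1 hj2).symm⟩
          intro h0
          exact (List.count_eq_zero.1 h0) hxC
        have hxl := hL vis
        have hxA : x ∈ A := by
          rcases hD i hi x hxC with h | h
          · exact absurd h ha
          · rw [cx] at h
            by_contra h0
            rw [List.count_eq_zero.2 h0] at h
            omega
        have hm : mL (ty C x) i = ([1, 1, 0], [1, 1, 0, 1, 1]) := by
          unfold mL
          rw [if_neg ha]
        unfold XL eL at hxl
        rw [hm] at hxl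
        have s1 : A ++ sb y x [1, 1, 0] ++ D = A ++ x :: x :: y :: D := by simp [sb]
        have s2 : A ++ sb y x [1, 1, 0, 1, 1] ++ D = A ++ x :: x :: y :: x :: x :: D := by
          simp [sb]
        have hdx : 1 ≤ A.count x := List.count_pos_iff.2 hxA
        have m1 : ∀ c ∈ A ++ x :: x :: y :: D, c ∈ C i := by
          intro c hc
          rw [hCi]
          simp only [List.mem_append, List.mem_cons] at hc ⊢
          tauto
        have m2 : ∀ c ∈ A ++ x :: x :: y :: x :: x :: D, c ∈ C i := by
          intro c hc
          rw [hCi]
          simp only [List.mem_append, List.mem_cons] at hc ⊢
          tauto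
        have m3 : ∀ c ∈ A ++ y :: x :: D, c ∈ C i := by
          intro c hc
          rw [hCi]
          simp only [List.mem_append, List.mem_cons] at hc ⊢
          tauto
        have k1 : ∀ c, (C i).count c ≤ (A ++ x :: x :: y :: D).count c := by
          intro c
          rw [hCi, List.count_append, List.count_append]
          simp only [List.count_cons]
          omega
        have k2 : ∀ c, (C i).count c ≤ (A ++ x :: x :: y :: x :: x :: D).count c := by
          intro c
          rw [hCi, List.count_append, List.count_append]
          simp only [List.count_cons]
          omega
        have k3 : ∀ c, (C i).count c ≤ (A ++ y :: x :: D).count c := by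
          intro c
          rw [hCi, List.count_append, List.count_append]
          simp only [List.count_cons]
          omega
        have r1 := hX β θ hβ hle k C i A D y x [1, 1, 0] [1, 1, 0, 1, 1] hyx vis hD (by simp)
          (by simp) (by rw [s1]; exact okU hC hi m1 k1) (by rw [s2]; exact okU hC hi m2 k2) hxl
        rw [s1, s2] at r1
        have r2 : RR β (asm k C) (asm k (Function.update C i (A ++ x :: x :: y :: D))) := by
          have := mm hβ hM (L := A ++ x :: y :: D) (L' := A ++ x :: x :: y :: D) hC hi
            (by intro c hc; rw [hCi]; exact hc) (by intro c; rw [hCi]) m1 k1 ?_ ?_
          · rw [self] at this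
            exact this
          · intro c
            by_cases hc : c = x
            · subst hc
              right
              rw [List.count_append, List.count_append]
              simp only [List.count_cons]
              simp
              omega
            · left
              rw [List.count_append, List.count_append]
              simp only [List.count_cons]
              have : (x == c) = false := by simpa using fun h => hc h.symm
              rw [this]
              simp
          · intro c d hcd
            exact (hB A (x :: y :: D) x c d hxA (by simp) hcd).symm
        have r3 : RR β (asm k (Function.update C i (A ++ y :: x :: D)))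
            (asm k (Function.update C i (A ++ x :: x :: y :: x :: x :: D))) := by
          refine mm hβ hM hC hi m3 k3 m2 k2 ?_ ?_
          · intro c
            by_cases hc : c = x
            · subst hc
              right
              rw [List.count_append, List.count_append]
              simp only [List.count_cons]
              simp
              omega
            · left
              rw [List.count_append, List.count_append]
              simp only [List.count_cons]
              have : (x == c) = false := by simpa using fun h => hc h.symm
              rw [this]
              simp
          · intro c d hcd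
            have b1 := hB A (y :: x :: D) x c d hxA (by simp) hcd
            have b2 := hB A (x :: y :: x :: D) x c d hxA (by simp) hcd
            have b3 := hB (A ++ [x, x, y]) (x :: D) x c d (by simp) (by simp) hcd
            simp only [List.append_assoc, List.cons_append, List.nil_append] at b1 b2 b3
            rw [b3, b2, b1]
        exact θ.trans (up _ _ r2) (θ.trans r1 (up _ _ r3.symm))
      · have hxA : x ∈ A := by
          rcases hD i hi x hxC with h | h
          · exact absurd h ha
          · rw [cx] at h
            by_contra h0
            rw [List.count_eq_zero.2 h0] at h
            omega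
        have hyD : y ∈ D := by
          rcases hD i hi y hyC with h | h
          · exact absurd h hb
          · rw [cy] at h
            by_contra h0
            rw [List.count_eq_zero.2 h0] at h
            omega
        exact up _ _ (hF β hβ k C hC i hi A D x y hCi hxy hxA hyD)

end Pool.Agent.MWG.H42
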